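import Pool.Agent.Helper23.NS.Path

/-!
# Posets with cover graph of maximum degree 4 and path-width `2 * k + 1`: lower bounds for the
dimension with the optimal exponent
-/

set_option autoImplicit false

namespace Pool.Agent.Results.MP_fab4a1_co.BoundedDegree

open Pool.Agent.Helper66.PD

/-- For all `k ≥ 1` and `n` there is a finite poset in which all chains have at most
`(2 * k - 1) * n + 1` elements, whose cover graph has maximum degree at most `4` and path-width
at most `2 * k + 1` and whose dimension is at least `n ^ k`. -/
theorem result :
    ∀ k n : ℕ, 1 ≤ k → ∃ (P : Type) (_ : PartialOrder P) (_ : Fintype P),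
      HeightLE P ((2 * k - 1) * n + 1) ∧ PathWidthLE (cov P) (2 * k + 1) ∧
        DegreeLE (cov P) 4 ∧ ∀ d : ℕ, DimLE P d → n ^ k ≤ d :=
  Pool.Agent.Helper23.NS.degree_four_sharp

end Pool.Agent.Results.MP_fab4a1_co.BoundedDegree
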