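import Pool.Agent.Helper23.NK.Path

/-!
# Posets with cover graph of bounded path-width: lower bounds for the dimension
-/

set_option autoImplicit false

namespace Pool.Agent.Results.MP_fab4a1_co.PathWidthLower

open Pool.Agent.Helper66.PD

/-- For all `k` and `n` there is a finite poset in which all chains have at most `k * n + 2`
elements, whose cover graph has path-width at most `2 * k + 1` and whose dimension is at least
`n ^ k`. -/
theorem result :
    ∀ k n : ℕ, ∃ (P : Type) (_ : PartialOrder P) (_ : Fintype P),
      HeightLE P (k * n + 2) ∧ PathWidthLE (cov P) (2 * k + 1) ∧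
        ∀ d : ℕ, DimLE P d → n ^ k ≤ d :=
  Pool.Agent.Helper23.NK.path_width_lower

end Pool.Agent.Results.MP_fab4a1_co.PathWidthLower
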