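import Pool.Agent.Helper66.PD.Tw3

/-!
# Posets with cover graph of bounded path-width: the exact order of the dimension
-/

set_option autoImplicit false

namespace Pool.Agent.Results.MP_fab4a1_co.PathWidthPolynomial

open Pool.Agent.Helper66.PD

/-- For every `w` there is a constant `C` such that every finite poset of height at most `h` whose
cover graph has path-width at most `w` has dimension at most `C * h ^ ((w - 1) / 2)`, where
`(w - 1) / 2` is the integer part of `(w - 1) / 2` (and `0` for `w = 0`). -/
theorem result :
    ∀ w : ℕ, ∃ C : ℕ, ∀ (h : ℕ) (P : Type) [PartialOrder P] [Fintype P],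
      HeightLE P h → PathWidthLE (cov P) w → DimLE P (C * h ^ ((w - 1) / 2)) :=
  path_width_sharp

end Pool.Agent.Results.MP_fab4a1_co.PathWidthPolynomial
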