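import Pool.Agent.Helper66.PD.Up9

/-!
# Posets with cover graph of bounded path-width: recursion for the dimension
-/

set_option autoImplicit false

namespace Pool.Agent.Results.MP_fab4a1_co.PathWidthRecursion

open Pool.Agent.Helper66.PD

/-- For all `w`, `j` there is a constant `C` such that for all `h` and `d ≥ 1`: if every finite
poset of height at most `h` whose cover graph has path-width at most `w` has dimension at most `d`,
then every finite poset of height at most `h` whose cover graph has path-width at most `w + 2 * j`
has dimension at most `C * h ^ j * d`. -/
theorem result :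
    ∀ w j : ℕ, ∃ C : ℕ, ∀ h d : ℕ, 1 ≤ d →
      (∀ (Q : Type) [PartialOrder Q] [Fintype Q], HeightLE Q h → PathWidthLE (cov Q) w →
        DimLE Q d) →
      ∀ (P : Type) [PartialOrder P] [Fintype P], HeightLE P h →
        PathWidthLE (cov P) (w + 2 * j) → DimLE P (C * h ^ j * d) :=
  path_width_rec_iter

end Pool.Agent.Results.MP_fab4a1_co.PathWidthRecursion
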